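import Pool.Agent.Y722.PD.Regular

/-!
# The polarized relation at all cardinals of the cofinality of `𝔡`: a dichotomy in ZFC

The problem asks whether `𝔡 ≤ 𝔲` together with `(𝔡, ω) → (𝔡, ω)^{1,1}_2` is consistent.  Part 3 with `κ = 𝔡`
and `m = 2` says that it is not, and that the relation at `𝔡` is in fact equivalent to `𝔲 < 𝔡`.
-/

set_option autoImplicit false

open Cardinal

namespace Pool.Agent.Results.MP_2712b7_lc.Dichotomy

open Pool.Agent.Y722.PD

/-- Let `κ` be any cardinal with the cofinality of `𝔡` (for instance `κ = 𝔡`, which may be singular).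
1. If `𝔲 < 𝔡`, the strong polarized relation `(κ, ω) → (κ, ω)^{1,1}_m` holds for every finite number `m` of
   colours.
2. If `𝔡 ≤ 𝔲`, there is a colouring of `κ × ω` with `ω` colours such that for every infinite `B ⊆ ω` all but
   fewer than `κ` of the rows take every one of the `ω` colours infinitely often on `B`.
3. Hence for every `m ≥ 2` the relation `(κ, ω) → (κ, ω)^{1,1}_m` is equivalent to `𝔲 < 𝔡`. -/
theorem result : ∀ κ : Cardinal.{0}, κ.ord.cof = dominatingNumber.ord.cof →
    (ultrafilterNumber < dominatingNumber → ∀ m : ℕ, Polarized κ m) ∧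
    (dominatingNumber ≤ ultrafilterNumber → ∀ L : Type, #L = κ →
      ∃ c : L → ℕ → ℕ, ∀ B : Set ℕ, B.Infinite →
        #{a | ∃ j, {n | n ∈ B ∧ c a n = j}.Finite} < κ) ∧
    ∀ m : ℕ, 2 ≤ m → (Polarized κ m ↔ ultrafilterNumber < dominatingNumber) :=
  fun _ hκ => ⟨fun h m => polarized (by rw [hκ, cof_eq h]; exact h) m,
    fun h _ hL => negative h hκ hL, fun _ hm => polarized_iff hκ hm⟩

end Pool.Agent.Results.MP_2712b7_lc.Dichotomy
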